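import Pool.Agent.MP_ba1c1e_lc.Dichotomy
import Pool.Agent.MP_ba1c1e_lc.Nonmeagre

/-!
Negative answer (in ZFC) to the question whether `F × F⁺` is homeomorphic to `F⁺`
for every non-meager filter `F` on `ω`.

If there is a P-point `W`, the filter `FW W` (generated by the finite-to-one preimages of the
members of `W` and by the levels) is a counterexample.  If there is no P-point, then there are two
ultrafilters `U`, `V` which are far apart (not nearly coherent) and `U ∩ V` is a counterexample.
In both cases there is not even a continuous open surjection from `F⁺` onto `F`.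
-/

namespace Pool.Agent.Results.MP_ba1c1e_lc.NotHomeomorphic

open Pool.Agent.MP_ba1c1e_lc

theorem result : ∃ F : Filter ℕ, F ≤ Filter.cofinite ∧ F.NeBot ∧ ¬ IsMeagre (filterSet F) ∧
    IsEmpty ((filterSet F × positiveSet F) ≃ₜ positiveSet F) := by
  by_cases hex : ∃ W : Ultrafilter ℕ, IsPPoint W
  · obtain ⟨W, hW⟩ := hex
    have hne : (FW (W : Filter ℕ)).NeBot := FW_neBot hW.1
    refine ⟨FW W, FW_le_cofinite hW.1, hne, not_isMeagre_FW W, ⟨fun h => ?_⟩⟩
    obtain ⟨A, hA⟩ := openLike_of_homeo (FW W) h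
    exact no_openLike_of_pPoint hW A hA
  · obtain ⟨U, V, hU, hV, hfar⟩ := exists_farApart (fun W hW => hex ⟨W, hW⟩)
    have hle : (U : Filter ℕ) ⊔ (V : Filter ℕ) ≤ Filter.cofinite := sup_le hU hV
    have hne : ((U : Filter ℕ) ⊔ (V : Filter ℕ)).NeBot := by
      have : (U : Filter ℕ).NeBot := U.neBot
      exact this.mono le_sup_left
    refine ⟨(U : Filter ℕ) ⊔ (V : Filter ℕ), hle, hne, not_isMeagre_sup U V, ⟨fun h => ?_⟩⟩
    obtain ⟨A, hA⟩ := openLike_of_homeo _ h
    exact no_openLike_of_farApart hle le_sup_left le_sup_right hfar A hA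

end Pool.Agent.Results.MP_ba1c1e_lc.NotHomeomorphic
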